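import Pool.Agent.Helper70.GUM.St3

/-!
# Project GUM (MP_0bd1d1_al): module UU
-/

set_option autoImplicit false

namespace Pool.Agent.Helper43.GUT

open Module _root_.GUM Pool.Agent.Helper70.GUM Pool.Agent.Helper70.GUT
open UN (QE)
open OG (act Bd Stb steps Ch Wt)

universe u v w z y o

/-- MODULE UU: a vector of norm `-1` in the anisotropic line. -/
theorem hUU : StUU.{u, v, y} := by
  intro k F _ _ _ X _ _ _ σ hσ B hH Y p p' hY hp h3
  have h1 : finrank F (pp B Y p p') = 1 := by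
    have := hH.fr Y p p' hp
    omega
  obtain ⟨a, ha0, ha⟩ := finrank_eq_one_iff'.1 h1
  have ha0' : (a : X) ≠ 0 := fun h => ha0 (Subtype.ext h)
  have haa : B.f a a ≠ 0 := by
    intro h0
    obtain ⟨x, hx, hax⟩ := hH.nd Y p p' hp hY a a.2 ha0'
    obtain ⟨c, hc⟩ := ha ⟨x, hx⟩
    apply hax
    have hc' : c • (a : X) = x := congrArg Subtype.val hc
    rw [← hc', B.smul_r, h0, mul_zero]
  have hs : σ (B.f a a) = B.f a a := (B.sym a a).symm
  obtain ⟨n, hn⟩ := hσ.fix (-(B.f a a)⁻¹) (by rw [map_neg, map_inv₀, hs])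
  obtain ⟨t, ht⟩ := hσ.nrm n
  refine ⟨t • (a : X), Submodule.smul_mem _ t a.2, ?_⟩
  rw [B.smul, B.smul_r, ← mul_assoc, ht, hn, neg_mul, inv_mul_cancel₀ haa]

end Pool.Agent.Helper43.GUT
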